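import Pool.Agent.K.MP_57148c_nt.C0

open Polynomial

namespace Pool.Agent.Results.MP_57148c_nt.DegreeSix

/-- Three rational functions with sixth powers summing to 1, written over a common denominator
with all four polynomials of degree at most 5: one of them is constant. -/
theorem result (f₀ f₁ f₂ f₃ : ℂ[X]) (h₀ : f₀ ≠ 0) (d₀ : f₀.natDegree ≤ 5)
    (d₁ : f₁.natDegree ≤ 5) (d₂ : f₂.natDegree ≤ 5) (d₃ : f₃.natDegree ≤ 5)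
    (g₁ g₂ g₃ : RatFunc ℂ)
    (e₁ : g₁ = algebraMap ℂ[X] (RatFunc ℂ) f₁ / algebraMap ℂ[X] (RatFunc ℂ) f₀)
    (e₂ : g₂ = algebraMap ℂ[X] (RatFunc ℂ) f₂ / algebraMap ℂ[X] (RatFunc ℂ) f₀)
    (e₃ : g₃ = algebraMap ℂ[X] (RatFunc ℂ) f₃ / algebraMap ℂ[X] (RatFunc ℂ) f₀)
    (h : g₁ ^ 6 + g₂ ^ 6 + g₃ ^ 6 = 1) :
    g₁ ∈ Set.range (algebraMap ℂ (RatFunc ℂ)) ∨ g₂ ∈ Set.range (algebraMap ℂ (RatFunc ℂ)) ∨
      g₃ ∈ Set.range (algebraMap ℂ (RatFunc ℂ)) := by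
  have hne : algebraMap ℂ[X] (RatFunc ℂ) f₀ ≠ 0 := RatFunc.algebraMap_ne_zero h₀
  have hs : f₁ ^ 6 + f₂ ^ 6 + f₃ ^ 6 = f₀ ^ 6 := by
    apply RatFunc.algebraMap_injective ℂ
    rw [e₁, e₂, e₃] at h
    simp only [map_add, map_pow]
    field_simp at h
    exact h
  have key : ∀ (f : ℂ[X]) (c : ℂ), f = C c * f₀ →
      algebraMap ℂ[X] (RatFunc ℂ) f / algebraMap ℂ[X] (RatFunc ℂ) f₀ ∈
        Set.range (algebraMap ℂ (RatFunc ℂ)) := fun f c e =>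
    ⟨c, by rw [e, map_mul, mul_div_cancel_right₀ _ hne]; rfl⟩
  obtain ⟨j, hj, c, e⟩ := Pool.Agent.FS.main_poly (f := ![f₀, f₁, f₂, f₃])
    (fun i => by fin_cases i <;> assumption) h₀ hs
  fin_cases j
  · exact absurd rfl hj
  · exact Or.inl (e₁ ▸ key _ c e)
  · exact Or.inr (Or.inl (e₂ ▸ key _ c e))
  · exact Or.inr (Or.inr (e₃ ▸ key _ c e))

end Pool.Agent.Results.MP_57148c_nt.DegreeSix
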